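import Pool.Agent.Helper33.Iso.Goals

/-!
# A freely null spheroid is null rel boundary
-/

set_option autoImplicit false

open Topology unitInterval
open Pool.Agent.Helper72.Orb

namespace Pool.Agent.Helper9.Iso

universe u

noncomputable section

/-- Clip every coordinate to `[-1/2, 1/2]` and add `1/2`. -/
def clip {N : ℕ} (v : Fin N → ℝ) : Fin N → I := fun i =>
  Set.projIcc (0 : ℝ) 1 zero_le_one (v i + 1 / 2)

theorem continuous_clip {N : ℕ} : Continuous (clip : (Fin N → ℝ) → Fin N → I) := by
  apply continuous_pi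
  intro i
  exact continuous_projIcc.comp ((continuous_apply i).add continuous_const)

theorem clip_cc {N : ℕ} (x : Fin N → I) : clip (cc x) = x := by
  funext i
  simp only [clip, cc, sub_add_cancel]
  exact Set.projIcc_val zero_le_one (x i)

theorem cc_clip {N : ℕ} (v : Fin N → ℝ) (hv : ‖v‖ ≤ 1 / 2) : cc (clip v) = v := by
  have h : clip v = ofCc v hv := by
    have h1 := clip_cc (ofCc v hv)
    rwa [cc_ofCc] at h1
  rw [h, cc_ofCc]

theorem clip_mem {N : ℕ} (v : Fin N → ℝ) (hv : ‖v‖ = 1 / 2) :
    clip v ∈ Cube.boundary (Fin N) := by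
  apply mem_boundary_of_norm
  rw [cc_clip v hv.le, hv]

theorem gFREEREL : Pool.Agent.Helper33.Iso.FREEREL.{u} := by
  intro A _ N hN l a hl hf
  obtain ⟨K, hK0, hKb, hK1⟩ := hf
  set x₁ : Fin N → I := fun _ => 0 with hx₁
  have hx₁b : x₁ ∈ Cube.boundary (Fin N) := ⟨⟨0, hN⟩, Or.inl rfl⟩
  let c : C(I, A) := ⟨fun t => K (t, x₁), by
    exact K.continuous.comp (continuous_id.prodMk continuous_const)⟩
  have hc : ∀ t, c t = K (t, x₁) := fun t => rfl
  have hc0 : c 0 = a := by rw [hc, hK0, hl x₁ hx₁b]
  have hKc : ∀ t, ∀ x ∈ Cube.boundary (Fin N), K (t, x) = c t := fun t x hx =>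
    hKb t x hx x₁ hx₁b
  have hK1c : ∀ x, K (1, x) = c 1 := fun x => hK1 x x₁
  -- the radius
  let ρ : (Fin N → I) → ℝ := fun x => 2 * ‖cc x‖
  have hρc : Continuous ρ := continuous_const.mul continuous_cc.norm
  have hρ1 : ∀ x, ρ x ≤ 1 := by
    intro x
    have := norm_cc_le x
    simp only [ρ]
    linarith
  have hρb : ∀ x ∈ Cube.boundary (Fin N), ρ x = 1 := by
    intro x hx
    simp only [ρ]
    rw [norm_cc_boundary hx]
    norm_num
  let pr : ℝ → I := Set.projIcc (0 : ℝ) 1 zero_le_one
  have hprc : Continuous pr := continuous_projIcc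
  have hpr : ∀ t : I, pr (t : ℝ) = t := fun t => Set.projIcc_val zero_le_one t
  have hpr0 : pr 0 = 0 := hpr 0
  have hpr1 : ∀ s : ℝ, 1 ≤ s → pr s = 1 := fun s hs => Set.projIcc_of_right_le zero_le_one hs
  -- the first homotopy
  let L : I × (Fin N → I) → A := fun p =>
    if (1 + (p.1 : ℝ)) * ρ p.2 ≤ 1 then K (p.1, clip ((1 + (p.1 : ℝ)) • cc p.2))
    else c (pr ((p.1 : ℝ) - ((1 + (p.1 : ℝ)) * ρ p.2 - 1)))
  have hLc : Continuous L := by
    have c1 : Continuous fun p : I × (Fin N → I) => (p.1 : ℝ) :=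
      continuous_subtype_val.comp continuous_fst
    have c2 : Continuous fun p : I × (Fin N → I) => ρ p.2 := hρc.comp continuous_snd
    have c3 : Continuous fun p : I × (Fin N → I) => cc p.2 := continuous_cc.comp continuous_snd
    apply Continuous.if_le
    · exact K.continuous.comp (continuous_fst.prodMk
        (continuous_clip.comp ((continuous_const.add c1).smul c3)))
    · exact c.continuous.comp (hprc.comp
        (c1.sub (((continuous_const.add c1).mul c2).sub continuous_const)))
    · exact (continuous_const.add c1).mul c2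
    · exact continuous_const
    · rintro ⟨t, x⟩ h
      change (1 + (t : ℝ)) * ρ x = 1 at h
      change K (t, clip ((1 + (t : ℝ)) • cc x)) = c (pr ((t : ℝ) - ((1 + (t : ℝ)) * ρ x - 1)))
      have ht := t.2.1
      rw [hKc t _ (clip_mem _ _), h]
      · rw [sub_self, sub_zero, hpr]
      · rw [norm_smul, Real.norm_eq_abs, abs_of_nonneg (by linarith)]
        simp only [ρ] at h
        linarith
  have hL0 : ∀ x, L (0, x) = l x := by
    intro x
    simp only [L]
    rw [if_pos]
    · rw [Set.Icc.coe_zero, add_zero, one_smul, clip_cc, hK0]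
    · rw [Set.Icc.coe_zero, add_zero, one_mul]
      exact hρ1 x
  have hLb : ∀ t, ∀ x ∈ Cube.boundary (Fin N), L (t, x) = a := by
    intro t x hx
    by_cases ht : t = 0
    · rw [ht, hL0, hl x hx]
    · have hpos : (0 : ℝ) < t := unitInterval.pos_iff_ne_zero.2 ht
      simp only [L]
      rw [hρb x hx, if_neg (by linarith)]
      have e : (t : ℝ) - ((1 + (t : ℝ)) * 1 - 1) = 0 := by ring
      rw [e, hpr0, hc0]
  have hL1 : ∀ x, L (1, x) = c (pr (2 - 2 * ρ x)) := by
    intro x
    simp only [L]
    rw [Set.Icc.coe_one]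
    split_ifs with h
    · rw [hK1c, hpr1]
      linarith
    · have e : (1 : ℝ) - ((1 + 1) * ρ x - 1) = 2 - 2 * ρ x := by ring
      rw [e]
  -- the second homotopy
  let L' : I × (Fin N → I) → A := fun p =>
    c (pr ((1 - (p.1 : ℝ)) * (pr (2 - 2 * ρ p.2) : ℝ)))
  have hL'c : Continuous L' := by
    have c1 : Continuous fun p : I × (Fin N → I) => (p.1 : ℝ) :=
      continuous_subtype_val.comp continuous_fst
    have c2 : Continuous fun p : I × (Fin N → I) => ρ p.2 := hρc.comp continuous_snd
    exact c.continuous.comp (hprc.comp ((continuous_const.sub c1).mul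
      (continuous_subtype_val.comp (hprc.comp (continuous_const.sub (continuous_const.mul c2))))))
  have hL'0 : ∀ x, L' (0, x) = c (pr (2 - 2 * ρ x)) := by
    intro x
    simp only [L']
    rw [Set.Icc.coe_zero, sub_zero, one_mul, hpr]
  have hL'1 : ∀ x, L' (1, x) = a := by
    intro x
    simp only [L']
    rw [Set.Icc.coe_one, sub_self, zero_mul, hpr0, hc0]
  have hL'b : ∀ t, ∀ x ∈ Cube.boundary (Fin N), L' (t, x) = a := by
    intro t x hx
    simp only [L']
    rw [hρb x hx]
    have e : (2 : ℝ) - 2 * 1 = 0 := by ring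
    rw [e, hpr0, Set.Icc.coe_zero, mul_zero, hpr0, hc0]
  -- the map in the middle
  let m : C(Fin N → I, A) := ⟨fun x => c (pr (2 - 2 * ρ x)), by
    exact c.continuous.comp (hprc.comp (continuous_const.sub (continuous_const.mul hρc)))⟩
  have hm : ∀ x, m x = c (pr (2 - 2 * ρ x)) := fun x => rfl
  have h1 : l.HomotopicRel m (Cube.boundary (Fin N)) := by
    refine ⟨{ toFun := L, continuous_toFun := hLc, map_zero_left := hL0,
              map_one_left := fun x => hL1 x, prop' := ?_ }⟩
    intro t x hx
    change L (t, x) = l x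
    rw [hLb t x hx, hl x hx]
  have h2 : m.HomotopicRel (ContinuousMap.const _ a) (Cube.boundary (Fin N)) := by
    refine ⟨{ toFun := L', continuous_toFun := hL'c, map_zero_left := fun x => hL'0 x,
              map_one_left := fun x => hL'1 x, prop' := ?_ }⟩
    intro t x hx
    change L' (t, x) = m x
    rw [hL'b t x hx]
    have := hL'b 0 x hx
    rw [hL'0] at this
    rw [hm, this]
  exact h1.trans h2

end

end Pool.Agent.Helper9.Iso
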